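import Pool.Agent.Lib_helper60.AVM.Defs
import Pool.Agent.Lib_helper73.PQ.HYP

/-!
# Project AVM (MP_05dcdc_nt), blocks ES1, ES2: upper bounds for sums over tuples
-/

set_option autoImplicit false

namespace Pool.Agent.AVM

open Finset Filter Topology Pool.Agent.PQ Pool.Agent.GL

private theorem es_mem (n X : ℕ) (u : Fin n → ℕ) :
    u ∈ Tup n X ↔ (∀ i, u i ∈ prm X) ∧ ∏ i, u i ≤ X := by
  unfold Tup
  rw [mem_filter, Fintype.mem_piFinset]

private theorem es_prm (x p : ℕ) : p ∈ prm x ↔ p.Prime ∧ p ≤ x := by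
  unfold prm
  rw [mem_filter, mem_Icc]
  constructor
  · rintro ⟨⟨-, h1⟩, h2⟩; exact ⟨h2, h1⟩
  · rintro ⟨h1, h2⟩; exact ⟨⟨h1.one_lt.le, h2⟩, h1⟩

/-- sums over tuples, the first prime split off -/
theorem es_cons {M : Type*} [AddCommMonoid M] (n X : ℕ) (f : (Fin (n + 1) → ℕ) → M) :
    ∑ u ∈ Tup (n + 1) X, f u =
      ∑ p ∈ prm X, ∑ w ∈ Tup n (X / p), f (Fin.cons p w : Fin (n + 1) → ℕ) := by
  rw [Finset.sum_sigma']
  symm
  refine Finset.sum_bij' (fun s _ => (Fin.cons s.1 s.2 : Fin (n + 1) → ℕ))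
    (fun u _ => ⟨u 0, Fin.tail u⟩) ?_ ?_ ?_ ?_ ?_
  · rintro ⟨p, w⟩ h
    rw [mem_sigma] at h
    obtain ⟨h1, h2⟩ := h
    simp only at h1 h2
    rw [es_prm] at h1
    rw [es_mem] at h2 ⊢
    refine ⟨fun i => ?_, ?_⟩
    · refine Fin.cases ?_ (fun j => ?_) i
      · rw [Fin.cons_zero, es_prm]; exact h1
      · rw [Fin.cons_succ]
        have := h2.1 j
        rw [es_prm] at this ⊢
        exact ⟨this.1, this.2.trans (Nat.div_le_self _ _)⟩
    · rw [Fin.prod_univ_succ]
      simp only [Fin.cons_zero, Fin.cons_succ]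
      have := h2.2
      rw [Nat.le_div_iff_mul_le h1.1.pos] at this
      rwa [mul_comm]
  · intro u hu
    rw [es_mem] at hu
    rw [mem_sigma]
    have h0 := (es_prm _ _).1 (hu.1 0)
    refine ⟨hu.1 0, ?_⟩
    simp only
    rw [es_mem]
    have hp : ∏ i : Fin n, Fin.tail u i ≤ X / u 0 := by
      rw [Nat.le_div_iff_mul_le h0.1.pos, mul_comm]
      have := hu.2
      rw [Fin.prod_univ_succ] at this
      exact this
    refine ⟨fun i => ?_, hp⟩
    rw [es_prm]
    have hi := (es_prm _ _).1 (hu.1 i.succ)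
    refine ⟨hi.1, le_trans ?_ hp⟩
    show Fin.tail u i ≤ _
    apply Finset.single_le_prod' (f := fun i => Fin.tail u i) (fun j _ => ?_) (mem_univ i)
    exact ((es_prm _ _).1 (hu.1 j.succ)).1.one_lt.le
  · rintro ⟨p, w⟩ h
    simp
  · intro u hu
    simp
  · rintro ⟨p, w⟩ h
    rfl

/-- a bound for all large numbers gives one for all numbers `≥ 16` -/
private theorem es_all (f g : ℕ → ℝ) (hg : ∀ X, 16 ≤ X → 0 < g X)
    (h : ∃ C : ℝ, 0 < C ∧ ∃ X₀ : ℕ, ∀ X, X₀ ≤ X → f X ≤ C * g X) :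
    ∃ C : ℝ, 0 < C ∧ ∀ X, 16 ≤ X → f X ≤ C * g X := by
  obtain ⟨C, hC, X₀, hX⟩ := h
  refine ⟨C + ∑ Y ∈ (range X₀).filter (fun Y => 16 ≤ Y), |f Y| / g Y, ?_, fun X h16 => ?_⟩
  · have : 0 ≤ ∑ Y ∈ (range X₀).filter (fun Y => 16 ≤ Y), |f Y| / g Y := by
      apply sum_nonneg
      intro Y hY
      rw [mem_filter] at hY
      exact div_nonneg (abs_nonneg _) (hg Y hY.2).le
    linarith
  · have hn : 0 ≤ ∑ Y ∈ (range X₀).filter (fun Y => 16 ≤ Y), |f Y| / g Y := by
      apply sum_nonneg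
      intro Y hY
      rw [mem_filter] at hY
      exact div_nonneg (abs_nonneg _) (hg Y hY.2).le
    by_cases hc : X₀ ≤ X
    · have := hX X hc
      nlinarith [hg X h16]
    · have hm : X ∈ (range X₀).filter (fun Y => 16 ≤ Y) := by
        rw [mem_filter, mem_range]; exact ⟨by omega, h16⟩
      have h1 : |f X| / g X ≤ ∑ Y ∈ (range X₀).filter (fun Y => 16 ≤ Y), |f Y| / g Y := by
        apply single_le_sum (f := fun Y => |f Y| / g Y) _ hm
        intro Y hY
        rw [mem_filter] at hY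
        exact div_nonneg (abs_nonneg _) (hg Y hY.2).le
      have h2 : f X ≤ |f X| / g X * g X := by
        rw [div_mul_cancel₀ _ (hg X h16).ne']; exact le_abs_self _
      nlinarith [hg X h16]

private theorem es_loglog (X : ℕ) (hX : 16 ≤ X) : 1 ≤ Real.log (Real.log X) ∧ 0 < Real.log X ∧ (16 : ℝ) ≤ X := by
  have h16 : (16 : ℝ) ≤ X := by exact_mod_cast hX
  have hl2 := Real.log_two_gt_d9
  have h1 : Real.log 16 = 4 * Real.log 2 := by
    rw [show (16 : ℝ) = 2 ^ (4 : ℕ) by norm_num, Real.log_pow]; norm_num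
  have h2 : Real.log 16 ≤ Real.log X := Real.log_le_log (by norm_num) h16
  have h3 : (2.7725 : ℝ) < Real.log X := by rw [h1] at h2; linarith
  have he : Real.exp 1 < 2.7182818286 := Real.exp_one_lt_d9
  refine ⟨?_, by linarith, h16⟩
  rw [Real.le_log_iff_exp_le (by linarith)]
  linarith

private theorem es_LL_pos (n X : ℕ) (hX : 16 ≤ X) : 0 < LL n X := by
  obtain ⟨h1, h2, h3⟩ := es_loglog X hX
  unfold LL
  positivity

/-- the floor -/
private theorem es_floor (X p : ℕ) (hp : p.Prime) (h : 16 ≤ X / p) :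
    ((X / p : ℕ) : ℝ) / Real.log ((X / p : ℕ) : ℝ) ≤ 2 * (((X : ℝ) / p) / Real.log ((X : ℝ) / p)) := by
  have hp0 : (0 : ℝ) < p := by exact_mod_cast hp.pos
  obtain ⟨h1, h2, h3⟩ := es_loglog (X / p) h
  set Y : ℝ := ((X / p : ℕ) : ℝ) with hY
  have hle : Y ≤ (X : ℝ) / p := Nat.cast_div_le
  have hlt : (X : ℝ) / p < Y + 1 := by
    rw [div_lt_iff₀ hp0]
    have := Nat.lt_mul_div_succ X hp.pos
    have h3 : (X : ℝ) < p * (((X / p : ℕ) : ℝ) + 1) := by exact_mod_cast this
    rw [← hY] at h3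
    linarith
  have hl : Real.log ((X : ℝ) / p) ≤ 2 * Real.log Y := by
    rw [← Real.log_rpow (by linarith)]
    apply Real.log_le_log (by linarith)
    rw [show (2 : ℝ) = ((2 : ℕ) : ℝ) by norm_num, Real.rpow_natCast]
    nlinarith
  have hlp : 0 < Real.log ((X : ℝ) / p) := Real.log_pos (by linarith)
  rw [← mul_div_assoc, div_le_div_iff₀ h2 hlp]
  nlinarith [mul_le_mul hle hl hlp.le (by linarith : (0 : ℝ) ≤ (X : ℝ) / p)]

/-- the sum of `LL n (X / p)` -/
private theorem es_step (n : ℕ) : ∃ C : ℝ, 0 < C ∧ ∃ X₀ : ℕ, ∀ X, X₀ ≤ X →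
    ∑ p ∈ (prm X).filter (fun p => 16 ≤ X / p), LL n (X / p) ≤ C * LL (n + 1) X := by
  obtain ⟨C, hC, X₀, hX⟩ := sum_hyp
  refine ⟨2 * C, by positivity, max X₀ 16, fun X hXX => ?_⟩
  have hX0 : X₀ ≤ X := (le_max_left _ _).trans hXX
  have h16 : 16 ≤ X := (le_max_right _ _).trans hXX
  obtain ⟨a1, a2, a3⟩ := es_loglog X h16
  have hs := hX X hX0
  have key : ∀ p ∈ (prm X).filter (fun p => 16 ≤ X / p), LL n (X / p) ≤
      2 * Real.log (Real.log X) ^ n * (((X : ℝ) / p) / Real.log ((X : ℝ) / p)) := by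
    intro p hp
    rw [mem_filter, es_prm] at hp
    obtain ⟨⟨hp1, hp2⟩, hp3⟩ := hp
    obtain ⟨h1, h2, h3⟩ := es_loglog (X / p) hp3
    have hf := es_floor X p hp1 hp3
    have hle : Real.log (Real.log ((X / p : ℕ) : ℝ)) ≤ Real.log (Real.log X) := by
      apply Real.log_le_log h2
      apply Real.log_le_log (by linarith)
      exact_mod_cast Nat.div_le_self _ _
    have hpw : Real.log (Real.log ((X / p : ℕ) : ℝ)) ^ n ≤ Real.log (Real.log X) ^ n :=
      pow_le_pow_left₀ (by linarith) hle n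
    unfold LL
    rw [mul_comm (((X / p : ℕ) : ℝ)), mul_div_assoc]
    calc Real.log (Real.log ((X / p : ℕ) : ℝ)) ^ n * (((X / p : ℕ) : ℝ) / Real.log ((X / p : ℕ) : ℝ))
        ≤ Real.log (Real.log X) ^ n * (2 * (((X : ℝ) / p) / Real.log ((X : ℝ) / p))) :=
          mul_le_mul hpw hf (by positivity) (by positivity)
      _ = _ := by ring
  refine (sum_le_sum key).trans ?_
  rw [← mul_sum]
  have hsub : (prm X).filter (fun p => 16 ≤ X / p) ⊆ prm (X / 2) := by
    intro p hp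
    rw [mem_filter, es_prm] at hp
    rw [es_prm]
    refine ⟨hp.1.1, ?_⟩
    have h1 := hp.2
    rw [Nat.le_div_iff_mul_le hp.1.1.pos] at h1
    rw [Nat.le_div_iff_mul_le (by norm_num)]
    omega
  have hsum : ∑ p ∈ (prm X).filter (fun p => 16 ≤ X / p), ((X : ℝ) / p) / Real.log ((X : ℝ) / p) ≤
      ∑ p ∈ prm (X / 2), ((X : ℝ) / p) / Real.log ((X : ℝ) / p) := by
    apply sum_le_sum_of_subset_of_nonneg hsub
    intro p hp _
    rw [es_prm] at hp
    have hp0 : (0 : ℝ) < p := by exact_mod_cast hp.1.pos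
    have : (1 : ℝ) ≤ (X : ℝ) / p := by
      rw [le_div_iff₀ hp0, one_mul]
      exact_mod_cast hp.2.trans (Nat.div_le_self _ _)
    exact div_nonneg (by linarith) (Real.log_nonneg this)
  calc 2 * Real.log (Real.log X) ^ n * ∑ p ∈ (prm X).filter (fun p => 16 ≤ X / p),
        ((X : ℝ) / p) / Real.log ((X : ℝ) / p)
      ≤ 2 * Real.log (Real.log X) ^ n * (C * (X * Real.log (Real.log X) / Real.log X)) :=
        mul_le_mul_of_nonneg_left (hsum.trans hs) (by positivity)
    _ = 2 * C * LL (n + 1) X := by unfold LL; ring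

private theorem es_conv (n : ℕ) : ∃ C : ℝ, 0 < C ∧ ∀ X : ℕ, 16 ≤ X →
    ∑ w ∈ (Tup n X).filter (fun w => 16 ≤ X / ∏ i, w i), LL 1 (X / ∏ i, w i) ≤ C * LL (n + 1) X := by
  induction n with
  | zero =>
    refine ⟨1, one_pos, fun X hX => ?_⟩
    have hT : Tup 0 X = {(fun i => Fin.elim0 i)} := by
      ext w
      rw [es_mem, mem_singleton]
      constructor
      · intro _; funext i; exact Fin.elim0 i
      · intro _
        refine ⟨fun i => Fin.elim0 i, ?_⟩
        simp; omega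
    rw [hT, filter_singleton]
    simp [hX]
  | succ n ih =>
    obtain ⟨C, hC, h⟩ := ih
    refine es_all _ _ (fun X hX => es_LL_pos _ _ hX) ?_
    obtain ⟨D, hD, X₀, h2⟩ := es_step (n + 1)
    refine ⟨C * D, by positivity, X₀, fun X hX => ?_⟩
    rw [sum_filter, es_cons]
    have key : ∀ p ∈ prm X, ∑ w ∈ Tup n (X / p),
        (if 16 ≤ X / ∏ i, (Fin.cons p w : Fin (n + 1) → ℕ) i then
          LL 1 (X / ∏ i, (Fin.cons p w : Fin (n + 1) → ℕ) i) else 0) ≤
        if 16 ≤ X / p then C * LL (n + 1) (X / p) else 0 := by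
      intro p hp
      rw [es_prm] at hp
      have e : ∀ w : Fin n → ℕ, X / ∏ i, (Fin.cons p w : Fin (n + 1) → ℕ) i = X / p / ∏ i, w i := by
        intro w
        rw [Fin.prod_univ_succ]
        simp only [Fin.cons_zero, Fin.cons_succ]
        rw [Nat.div_div_eq_div_mul]
      simp only [e]
      rw [← sum_filter]
      by_cases hc : 16 ≤ X / p
      · rw [if_pos hc]; exact h _ hc
      · rw [if_neg hc, filter_false_of_mem, sum_empty]
        intro w hw h16
        exact hc (h16.trans (Nat.div_le_self _ _))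
    refine (sum_le_sum key).trans ?_
    rw [← sum_filter, ← mul_sum, mul_assoc]
    exact mul_le_mul_of_nonneg_left (h2 X hX) hC.le

theorem tup_conv (n : ℕ) : ∃ C : ℝ, 0 < C ∧ ∃ X₀ : ℕ, ∀ X : ℕ, X₀ ≤ X →
    ∑ w ∈ (Tup n X).filter (fun w => 16 ≤ X / ∏ i, w i), LL 1 (X / ∏ i, w i) ≤ C * LL (n + 1) X := by
  obtain ⟨C, hC, h⟩ := es_conv n
  exact ⟨C, hC, 16, h⟩

private theorem es_card (n : ℕ) : ∃ C : ℝ, 0 < C ∧ ∀ X : ℕ, 16 ≤ X →
    ((Tup (n + 1) X).card : ℝ) ≤ C * LL n X := by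
  induction n with
  | zero =>
    obtain ⟨C, hC, h⟩ := pi_le
    refine ⟨C, hC, fun X hX => ?_⟩
    have e : ((Tup (0 + 1) X).card : ℝ) = (prm X).card := by
      have := es_cons (M := ℕ) 0 X (fun _ => 1)
      simp only [sum_const, smul_eq_mul, mul_one] at this
      rw [this]
      push_cast
      rw [Finset.card_eq_sum_ones]
      push_cast
      apply sum_congr rfl
      intro p hp
      rw [es_prm] at hp
      have hT : Tup 0 (X / p) = {(fun i => Fin.elim0 i)} := by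
        ext w
        rw [es_mem, mem_singleton]
        constructor
        · intro _; funext i; exact Fin.elim0 i
        · intro _
          refine ⟨fun i => Fin.elim0 i, ?_⟩
          simp only [univ_eq_empty, prod_empty]
          exact Nat.div_pos hp.2 hp.1.pos
      rw [hT]; simp
    rw [e]
    refine (h X (by omega)).trans (le_of_eq ?_)
    unfold LL
    ring
  | succ n ih =>
    obtain ⟨C, hC, h⟩ := ih
    refine es_all _ _ (fun X hX => es_LL_pos _ _ hX) ?_
    obtain ⟨D, hD, X₀, h2⟩ := es_step n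
    obtain ⟨E, hE, h3⟩ := pi_le
    obtain ⟨F, hF⟩ : ∃ F : ℝ, F = ∑ Y ∈ range 16, ((Tup (n + 1) Y).card : ℝ) := ⟨_, rfl⟩
    have hF0 : 0 ≤ F := hF ▸ sum_nonneg fun _ _ => Nat.cast_nonneg _
    have hCD : 0 < C * D := mul_pos hC hD
    have hFE : 0 ≤ F * E := mul_nonneg hF0 hE.le
    refine ⟨C * D + F * E, by linarith, max X₀ 16, fun X hX => ?_⟩
    have hX0 : X₀ ≤ X := (le_max_left _ _).trans hX
    have h16 : 16 ≤ X := (le_max_right _ _).trans hX
    obtain ⟨a1, a2, a3⟩ := es_loglog X h16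
    have e : ((Tup (n + 1 + 1) X).card : ℝ) = ∑ p ∈ prm X, ((Tup (n + 1) (X / p)).card : ℝ) := by
      have := es_cons (M := ℕ) (n + 1) X (fun _ => 1)
      simp only [sum_const, smul_eq_mul, mul_one] at this
      rw [this]
      push_cast
      rfl
    rw [e]
    have key : ∀ p ∈ prm X, ((Tup (n + 1) (X / p)).card : ℝ) ≤
        (if 16 ≤ X / p then C * LL n (X / p) else 0) + F := by
      intro p hp
      by_cases hc : 16 ≤ X / p
      · rw [if_pos hc]
        linarith [h _ hc]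
      · rw [if_neg hc, zero_add, hF]
        exact single_le_sum (f := fun Y => ((Tup (n + 1) Y).card : ℝ)) (fun _ _ => Nat.cast_nonneg _)
          (mem_range.2 (by omega))
    refine (sum_le_sum key).trans ?_
    rw [sum_add_distrib, ← sum_filter, ← mul_sum, sum_const, nsmul_eq_mul]
    have b1 : C * ∑ p ∈ (prm X).filter (fun p => 16 ≤ X / p), LL n (X / p) ≤ C * (D * LL (n + 1) X) :=
      mul_le_mul_of_nonneg_left (h2 X hX0) hC.le
    have b2 : ((prm X).card : ℝ) * F ≤ (E * LL (n + 1) X) * F := by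
      apply mul_le_mul_of_nonneg_right _ hF0
      refine (h3 X (by omega)).trans ?_
      unfold LL
      rw [mul_div_assoc, mul_div_assoc]
      apply mul_le_mul_of_nonneg_left _ hE.le
      have h1 : (1 : ℝ) ≤ Real.log (Real.log X) ^ (n + 1) := one_le_pow₀ a1
      have h2 : 0 ≤ (X : ℝ) / Real.log X := by positivity
      have h4 : (X : ℝ) / Real.log X * 1 ≤ (X : ℝ) / Real.log X * Real.log (Real.log X) ^ (n + 1) :=
        mul_le_mul_of_nonneg_left h1 h2
      calc (X : ℝ) / Real.log X = (X : ℝ) / Real.log X * 1 := by ring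
        _ ≤ (X : ℝ) / Real.log X * Real.log (Real.log X) ^ (n + 1) := h4
        _ = _ := by ring
    calc _ ≤ C * (D * LL (n + 1) X) + (E * LL (n + 1) X) * F := add_le_add b1 b2
      _ = _ := by ring

theorem tup_card (n : ℕ) : ∃ C : ℝ, 0 < C ∧ ∃ X₀ : ℕ, ∀ X : ℕ, X₀ ≤ X →
    ((Tup (n + 1) X).card : ℝ) ≤ C * LL n X := by
  obtain ⟨C, hC, h⟩ := es_card n
  exact ⟨C, hC, 16, h⟩

end Pool.Agent.AVM
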